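import Pool.Agent.H95.FC.Targets
import Pool.Agent.H35.CF.PDE1

/-!
# (FBR) lines with the same class differ by a unit
-/

set_option autoImplicit false

open MeasureTheory Set Filter NumberField
open Pool.Agent.H31.CN Pool.Agent.H89.FM Pool.Agent.H61.FM Pool.Agent.H89.FC Pool.Agent.H95.FC
open scoped Real nonZeroDivisors Matrix MatrixGroups

namespace Pool.Agent.H35.FC

theorem pf_FBR (hPRN : Pool.Agent.H95.CF.T_PRN) : Pool.Agent.H95.FC.T_FBR := by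
  intro K _ _ D f hK hf R b hb G _ cl hG c c' V V' hV hV' hu hu' hcl
  have hprv : Pool.Agent.H95.CF.Pr K f (b c V : Ideal (𝓞 K)) := by
    refine Pool.Agent.H35.CF.pr_norm (nonZeroDivisors.coe_ne_zero _) ?_
    have h1 := (hb c).nrm V hV
    unfold nm at h1
    rw [h1]
    exact hu
  have hprv' : Pool.Agent.H95.CF.Pr K f (b c' V' : Ideal (𝓞 K)) := by
    refine Pool.Agent.H35.CF.pr_norm (nonZeroDivisors.coe_ne_zero _) ?_
    have h1 := (hb c').nrm V' hV'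
    unfold nm at h1
    rw [h1]
    exact hu'
  obtain ⟨a₁, a₂, ha₁, ha₂, he⟩ := (hG.eqv _ _ hprv hprv').1 hcl
  have hcc : c = c' := by
    have h1 : ClassGroup.mk0 (b c V) = ClassGroup.mk0 (b c' V') := by
      rw [ClassGroup.mk0_eq_mk0_iff]
      exact ⟨a₁, a₂, Pool.Agent.H35.CF.rat_ne ha₁, Pool.Agent.H35.CF.rat_ne ha₂, he⟩
    rw [(hb c).cls V hV, (hb c').cls V' hV', R.cl, R.cl] at h1
    exact inv_injective h1
  subst hcc
  refine ⟨rfl, ?_⟩
  have hsp : Ideal.span {a₁ * lv K (R.α c) (R.β c) V} =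
      Ideal.span {a₂ * lv K (R.α c) (R.β c) V'} := by
    rw [← Ideal.span_singleton_mul_span_singleton a₁, (hb c).spn V hV, ← mul_assoc, he,
      mul_assoc, ← (hb c).spn V' hV', Ideal.span_singleton_mul_span_singleton]
  rw [Ideal.span_singleton_eq_span_singleton] at hsp
  obtain ⟨u, hu1⟩ := hsp
  have hin : ∀ w : ℤ × ℤ, lv K (R.α c) (R.β c) w ∈ (R.I c : Ideal (𝓞 K)) :=
    fun w => ((R.ob c).mem _).2 ⟨w, rfl⟩
  obtain ⟨w, hw⟩ := ((R.ob c).mem _).1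
    (Ideal.mul_mem_left (R.I c : Ideal (𝓞 K)) (u : 𝓞 K) (hin V))
  obtain ⟨r, x₁, hr⟩ := Pool.Agent.H35.CF.rat_int ha₁
  obtain ⟨t, x₂, ht⟩ := Pool.Agent.H35.CF.rat_int ha₂
  obtain ⟨z, hz⟩ := ((R.ob c).mem _).1
    (Ideal.sub_mem (R.I c : Ideal (𝓞 K)) (Ideal.mul_mem_left _ x₂ (hin V'))
      (Ideal.mul_mem_left _ x₁ (hin w)))
  refine ⟨u, w, hw.symm, ?_⟩
  have hzero := (R.ob c).inj (r * w.1 - t * V'.1 - f * z.1, r * w.2 - t * V'.2 - f * z.2) (by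
    have hu2 : a₁ * lv K (R.α c) (R.β c) w = a₂ * lv K (R.α c) (R.β c) V' := by
      have h2 : lv K (R.α c) (R.β c) w = (u : 𝓞 K) * lv K (R.α c) (R.β c) V := hw.symm
      rw [h2, ← hu1]
      ring
    unfold lv at hu2 hz
    push_cast
    linear_combination hu2 - ((w.1 : 𝓞 K) * R.α c + (w.2 : 𝓞 K) * R.β c) * hr +
      ((V'.1 : 𝓞 K) * R.α c + (V'.2 : 𝓞 K) * R.β c) * ht + (f : 𝓞 K) * hz)
  have h1 : r * w.1 - t * V'.1 - f * z.1 = 0 := congrArg Prod.fst hzero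
  have h2 : r * w.2 - t * V'.2 - f * z.2 = 0 := congrArg Prod.snd hzero
  have h3 : (f : ℤ) ∣ r * det V' w := by
    refine ⟨det V' z, ?_⟩
    unfold det
    linear_combination V'.1 * h2 - V'.2 * h1
  have h4 : IsCoprime r (f : ℤ) := by
    have h5 : (1 : 𝓞 K) ∈ Ideal.span {a₁} ⊔ Ideal.span {(f : 𝓞 K)} := by
      rw [ha₁.1.2]
      trivial
    obtain ⟨s, hs, y, hy, hsy⟩ := Submodule.mem_sup.1 h5
    obtain ⟨p, rfl⟩ := Ideal.mem_span_singleton.1 hs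
    obtain ⟨q, rfl⟩ := Ideal.mem_span_singleton.1 hy
    refine Pool.Agent.H35.CF.cop_int (K := K) (x := p) (y := x₁ * p + q) ?_
    linear_combination hsy - p * hr
  exact h4.symm.dvd_of_dvd_mul_left h3

end Pool.Agent.H35.FC
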