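import Pool.Agent.H35.FC.ND

/-!
# Extensionality and foundation in the quotient
-/

set_option autoImplicit false

namespace Pool.Agent.H35.FC.AX1

open Pool.Agent.H9.FC Pool.Agent.H9.FC.BSet Pool.Agent.H35.FC

theorem pf_AX1 (hLOS : T_LOS) (hTRA : T_TRA) (_hCON : T_CON) (_hBQ : T_BQ) : T_AX1 := by
  intro B _ M
  constructor
  · intro x y h
    obtain ⟨x, rfl⟩ := M.cl_surj x
    obtain ⟨y, rfl⟩ := M.cl_surj y
    let v : ℕ → M.X := fun j => if j = 0 then x else y
    have h1 := (hLOS B M (Fml.all 2 (Fml.iff (Fml.mem 2 0) (Fml.mem 2 1))) v).1 (by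
      intro z
      rw [sat_iff]
      simpa [Sat, v, Function.update_apply] using h z)
    rw [M.cl_eq]
    refine M.up h1 ?_
    have h2 : fv (Fml.all 2 (Fml.iff (Fml.mem 2 0) (Fml.mem 2 1))) (fun i => (v i).1) =
        ⨅ z, (bmem z x.1 ⇨ bmem z y.1) ⊓ (bmem z y.1 ⇨ bmem z x.1) := by
      simp [fv, fv_iff, v, Function.update_apply]
    rw [h2]
    refine extI (fun z d hd h3 => ?_) (fun z d hd h3 => ?_)
    · exact himpE ((infE hd z).trans inf_le_left) h3
    · exact himpE ((infE hd z).trans inf_le_right) h3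
  · intro x h
    obtain ⟨x, rfl⟩ := M.cl_surj x
    let v : ℕ → M.X := fun _ => x
    obtain ⟨y, hy⟩ := hTRA B M (Fml.ex 1 (Fml.mem 1 0)) (Fml.and (Fml.mem 1 0)
      (Fml.all 2 (Fml.imp (Fml.mem 2 0) (Fml.neg (Fml.mem 2 1))))) 1 v (by
        have h2 : fv (Fml.ex 1 (Fml.mem 1 0)) (fun j => (v j).1) = ⨆ y, bmem y x.1 := by
          simp [fv, fv_ex, v]
        have h3 : ∀ y, fv (Fml.and (Fml.mem 1 0) (Fml.all 2 (Fml.imp (Fml.mem 2 0)
            (Fml.neg (Fml.mem 2 1))))) (Function.update (fun j => (v j).1) 1 y) =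
            bmem y x.1 ⊓ ⨅ z, bmem z x.1 ⇨ (bmem z y)ᶜ := by
          intro y
          simp [fv, fv_and, fv_neg, v, Function.update_apply]
        rw [h2]
        simp only [h3]
        refine iSup_le fun y => ?_
        induction y with
        | mk α A b ih =>
          refine byContra fun d hd hd2 => complE hd2 ?_
          refine supI (BSet.mk α A b) (le_inf hd (le_iInf fun z => himpI fun e he h4 =>
            complI fun f hf h5 => ?_))
          refine memE h5 fun i g hg h6 h7 => ?_
          refine complE ((hg.trans (hf.trans (he.trans hd2)))) ?_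
          exact (memL h7 (hg.trans (hf.trans h4))).trans (ih i)) (by
        rw [sat_ex]
        obtain ⟨y, hy⟩ := h
        refine ⟨y, ?_⟩
        simpa [Sat, v, Function.update_apply] using hy)
    refine ⟨M.cl y, ?_⟩
    rw [sat_and] at hy
    refine ⟨by simpa [Sat, v, Function.update_apply] using hy.1, fun z hz hzy => ?_⟩
    have h8 := hy.2 z
    refine h8 ?_ ?_
    · simpa [Sat, v, Function.update_apply] using hz
    · simpa [Sat, v, Function.update_apply] using hzy

end Pool.Agent.H35.FC.AX1
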