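import Pool.Agent.H35.FC.ND

/-!
# Pairing and union in the quotient
-/

set_option autoImplicit false

namespace Pool.Agent.H35.FC.AX2

open Pool.Agent.H9.FC Pool.Agent.H9.FC.BSet Pool.Agent.H35.FC

variable {B : Type} [CompleteBooleanAlgebra B]

lemma bmem_bup (t x y : BSet B) : bmem t (bup x y) = beq t x ⊔ beq t y := by
  unfold bmem bup
  change (⨆ j : Bool, ⊤ ⊓ beq t (cond j x y)) = _
  rw [iSup_bool_eq]
  simp

/-- the name of the union -/
def bun (x : BSet B) : BSet B :=
  BSet.mk (Σ i : x.type, (x.func i).type) (fun p => (x.func p.1).func p.2)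
    (fun p => x.bval p.1 ⊓ (x.func p.1).bval p.2)

lemma tra0 (hTRA : T_TRA) (M : Gen B) (ψ : Fml) (i : ℕ) (v : ℕ → M.X) (w : BSet B)
    (hw : fv ψ (Function.update (fun j => (v j).1) i w) = ⊤) :
    ∃ x : M.X, Sat M.E ψ (Function.update (fun j => M.cl (v j)) i (M.cl x)) :=
  hTRA B M (Fml.imp Fml.fal Fml.fal) ψ i v (le_top.trans (hw.symm.le.trans (le_iSup
    (fun x => fv ψ (Function.update (fun j => (v j).1) i x)) w))) (fun h => h)

theorem pf_AX2 (_hLOS : T_LOS) (hTRA : T_TRA) (_hCON : T_CON) (_hBQ : T_BQ) : T_AX2 := by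
  intro B _ M
  constructor
  · intro x y
    obtain ⟨x, rfl⟩ := M.cl_surj x
    obtain ⟨y, rfl⟩ := M.cl_surj y
    let v : ℕ → M.X := fun j => if j = 0 then x else y
    obtain ⟨z, hz⟩ := tra0 hTRA M
      (Fml.all 3 (Fml.iff (Fml.mem 3 2) (Fml.or (Fml.eq 3 0) (Fml.eq 3 1)))) 2 v
      (bup x.1 y.1) (by
        have h2 : fv (Fml.all 3 (Fml.iff (Fml.mem 3 2) (Fml.or (Fml.eq 3 0) (Fml.eq 3 1))))
            (Function.update (fun j => (v j).1) 2 (bup x.1 y.1)) =
            ⨅ t, (bmem t (bup x.1 y.1) ⇨ (beq t x.1 ⊔ beq t y.1)) ⊓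
              ((beq t x.1 ⊔ beq t y.1) ⇨ bmem t (bup x.1 y.1)) := by
          simp [fv, fv_iff, fv_or, v, Function.update_apply]
        rw [h2]
        simp [bmem_bup])
    refine ⟨M.cl z, fun t => ?_⟩
    have h3 := hz t
    rw [sat_iff, sat_or] at h3
    simpa [Sat, v, Function.update_apply] using h3
  · intro x
    obtain ⟨x, rfl⟩ := M.cl_surj x
    let v : ℕ → M.X := fun _ => x
    obtain ⟨z, hz⟩ := tra0 hTRA M
      (Fml.all 3 (Fml.iff (Fml.mem 3 2) (Fml.ex 4 (Fml.and (Fml.mem 4 0) (Fml.mem 3 4))))) 2 v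
      (bun x.1) (by
        have h2 : fv (Fml.all 3 (Fml.iff (Fml.mem 3 2)
            (Fml.ex 4 (Fml.and (Fml.mem 4 0) (Fml.mem 3 4)))))
            (Function.update (fun j => (v j).1) 2 (bun x.1)) =
            ⨅ t, (bmem t (bun x.1) ⇨ (⨆ y, bmem y x.1 ⊓ bmem t y)) ⊓
              ((⨆ y, bmem y x.1 ⊓ bmem t y) ⇨ bmem t (bun x.1)) := by
          simp [fv, fv_iff, fv_and, fv_ex, v, Function.update_apply]
        rw [h2]
        refine top_le_iff.1 (le_iInf fun t => iffI (fun d _ h => ?_) (fun d _ h => ?_))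
        · refine memE h fun p e _ h4 h5 => ?_
          exact supI (x.1.func p.1) (le_inf (bvalI p.1 (h4.trans inf_le_left))
            (memI p.2 (h4.trans inf_le_right) h5))
        · refine supE h fun y e _ h4 => ?_
          refine memE (h4.trans inf_le_left) fun i f hf h5 h6 => ?_
          have h7 := memR h6 (hf.trans (h4.trans inf_le_right))
          refine memE h7 fun k g hg h8 h9 => ?_
          exact memI (y := bun x.1) ⟨i, k⟩ (le_inf (hg.trans h5) h8) h9)
    refine ⟨M.cl z, fun t => ?_⟩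
    have h3 := hz t
    rw [sat_iff, sat_ex] at h3
    simp only [sat_and] at h3
    simpa [Sat, v, Function.update_apply] using h3

end Pool.Agent.H35.FC.AX2
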