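import Pool.Agent.H35.FC.ND

/-!
# Power set and infinity in the quotient
-/

set_option autoImplicit false

namespace Pool.Agent.H35.FC.AX3

open Pool.Agent.H9.FC Pool.Agent.H9.FC.BSet Pool.Agent.H35.FC

variable {B : Type} [CompleteBooleanAlgebra B]

/-- the name of a subset of `x` -/
def bss (x : BSet B) (f : x.type → B) : BSet B :=
  BSet.mk x.type x.func (fun i => x.bval i ⊓ f i)

/-- the name of the power set of `x` -/
def bpw (x : BSet B) : BSet B := BSet.mk (x.type → B) (bss x) (fun _ => ⊤)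

lemma mem_bpw (x t : BSet B) {c : B} (h : c ≤ bmem t (bpw x)) :
    c ≤ ⨅ s, bmem s t ⇨ bmem s x := by
  refine le_iInf fun s => himpI fun d hd h1 => ?_
  refine memE (hd.trans h) fun f e he _ h2 => ?_
  have h3 : e ≤ bmem s (bss x f) := memR h2 (he.trans h1)
  refine memE h3 fun i g hg h4 h5 => ?_
  exact memI i (h4.trans inf_le_left) h5

lemma bpw_mem (x t : BSet B) {c : B} (h : c ≤ ⨅ s, bmem s t ⇨ bmem s x) :
    c ≤ bmem t (bpw x) := by
  refine memI (y := bpw x) (fun i => bmem (x.func i) t) le_top ?_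
  refine extI (fun z d hd h1 => ?_) (fun z d hd h1 => ?_)
  · have h2 : d ≤ bmem z x := himpE (hd.trans (infE h z)) h1
    refine memE h2 fun i e he h3 h4 => ?_
    exact memI (y := bss x fun i => bmem (x.func i) t) i
      (le_inf h3 (memL h4 (he.trans h1))) h4
  · refine memE h1 fun i e he h3 h4 => ?_
    exact memL (eqS h4) (h3.trans inf_le_right)

lemma bmem_bsucc (z x : BSet B) : bmem z (bsucc x) = bmem z x ⊔ beq z x := by
  change (⨆ o : Option x.type, (o.elim ⊤ x.bval) ⊓ beq z (o.elim x x.func)) = _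
  rw [iSup_option, sup_comm]
  simp [bmem]

lemma tra0 (hTRA : T_TRA) (M : Gen B) (ψ : Fml) (i : ℕ) (v : ℕ → M.X) (w : BSet B)
    (hw : fv ψ (Function.update (fun j => (v j).1) i w) = ⊤) :
    ∃ x : M.X, Sat M.E ψ (Function.update (fun j => M.cl (v j)) i (M.cl x)) :=
  hTRA B M (Fml.imp Fml.fal Fml.fal) ψ i v (le_top.trans (hw.symm.le.trans (le_iSup
    (fun x => fv ψ (Function.update (fun j => (v j).1) i x)) w))) (fun h => h)

theorem pf_AX3 (_hLOS : T_LOS) (hTRA : T_TRA) (_hCON : T_CON) (_hBQ : T_BQ) : T_AX3 := by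
  intro B _ M
  constructor
  · intro x
    obtain ⟨x, rfl⟩ := M.cl_surj x
    let v : ℕ → M.X := fun _ => x
    obtain ⟨z, hz⟩ := tra0 hTRA M
      (Fml.all 3 (Fml.iff (Fml.mem 3 2) (Fml.all 4 (Fml.imp (Fml.mem 4 3) (Fml.mem 4 0))))) 2 v
      (bpw x.1) (by
        have h2 : fv (Fml.all 3 (Fml.iff (Fml.mem 3 2)
            (Fml.all 4 (Fml.imp (Fml.mem 4 3) (Fml.mem 4 0)))))
            (Function.update (fun j => (v j).1) 2 (bpw x.1)) =
            ⨅ t, (bmem t (bpw x.1) ⇨ (⨅ s, bmem s t ⇨ bmem s x.1)) ⊓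
              ((⨅ s, bmem s t ⇨ bmem s x.1) ⇨ bmem t (bpw x.1)) := by
          simp [fv, fv_iff, v, Function.update_apply]
        rw [h2]
        exact top_le_iff.1 (le_iInf fun t => iffI (fun d _ h => mem_bpw x.1 t h)
          (fun d _ h => bpw_mem x.1 t h)))
    refine ⟨M.cl z, fun t => ?_⟩
    have h3 := hz t
    rw [sat_iff] at h3
    simpa [Sat, v, Function.update_apply] using h3
  · obtain ⟨x, hx⟩ := M.nonempty
    let v : ℕ → M.X := fun _ => ⟨x, hx⟩
    obtain ⟨w, hw⟩ := tra0 hTRA M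
      (Fml.and (Fml.ex 1 (Fml.and (Fml.mem 1 0) (Fml.all 2 (Fml.neg (Fml.mem 2 1)))))
        (Fml.all 1 (Fml.imp (Fml.mem 1 0) (Fml.ex 2 (Fml.and (Fml.mem 2 0)
          (Fml.all 3 (Fml.iff (Fml.mem 3 2) (Fml.or (Fml.mem 3 1) (Fml.eq 3 1)))))))))
      0 v bomega (by
        have h2 : fv (Fml.and (Fml.ex 1 (Fml.and (Fml.mem 1 0) (Fml.all 2 (Fml.neg (Fml.mem 2 1)))))
            (Fml.all 1 (Fml.imp (Fml.mem 1 0) (Fml.ex 2 (Fml.and (Fml.mem 2 0)
            (Fml.all 3 (Fml.iff (Fml.mem 3 2) (Fml.or (Fml.mem 3 1) (Fml.eq 3 1)))))))))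
            (Function.update (fun j => (v j).1) 0 bomega) =
            (⨆ y : BSet B, bmem y bomega ⊓ ⨅ t, (bmem t y)ᶜ) ⊓
            ⨅ y : BSet B, bmem y bomega ⇨ ⨆ z, bmem z bomega ⊓
              ⨅ t, (bmem t z ⇨ (bmem t y ⊔ beq t y)) ⊓ ((bmem t y ⊔ beq t y) ⇨ bmem t z) := by
          simp [fv, fv_iff, fv_and, fv_or, fv_neg, fv_ex, v, Function.update_apply]
        rw [h2]
        refine top_le_iff.1 (le_inf ?_ (le_iInf fun y => himpI fun d _ h => ?_))
        · refine supI (bnum 0) (le_inf (memI (y := bomega) (0 : ℕ) le_top (eqR _))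
            (le_iInf fun t => complI fun d _ h => ?_))
          exact memE h fun i => Empty.elim i
        · refine memE h fun (n : ℕ) e _ _ h3 => ?_
          refine supI (bsucc (bnum n)) (le_inf
            (memI (y := bomega) (Nat.succ n) le_top (eqR _)) (le_iInf fun t => ?_))
          rw [bmem_bsucc]
          refine iffI (fun g hg h4 => ?_) (fun g hg h4 => ?_)
          · refine orE h4 (fun a ha h5 => ?_) (fun a ha h5 => ?_)
            · exact (memR (eqS (ha.trans (hg.trans h3))) h5).trans le_sup_left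
            · exact (eqT h5 (eqS (ha.trans (hg.trans h3)))).trans le_sup_right
          · refine orE h4 (fun a ha h5 => ?_) (fun a ha h5 => ?_)
            · exact (memR (ha.trans (hg.trans h3)) h5).trans le_sup_left
            · exact (eqT h5 (ha.trans (hg.trans h3))).trans le_sup_right)
    refine ⟨M.cl w, ?_⟩
    rw [sat_and, sat_ex] at hw
    constructor
    · obtain ⟨e, he⟩ := hw.1
      rw [sat_and] at he
      refine ⟨e, by simpa [Sat, v, Function.update_apply] using he.1, fun t => ?_⟩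
      have h3 := he.2 t
      rw [sat_neg] at h3
      simpa [Sat, v, Function.update_apply] using h3
    · intro y hy
      have h4 := hw.2 y (by simpa [Sat, v, Function.update_apply] using hy)
      rw [sat_ex] at h4
      obtain ⟨z, hz⟩ := h4
      rw [sat_and] at hz
      refine ⟨z, by simpa [Sat, v, Function.update_apply] using hz.1, fun t => ?_⟩
      have h5 := hz.2 t
      rw [sat_iff, sat_or] at h5
      simpa [Sat, v, Function.update_apply] using h5

end Pool.Agent.H35.FC.AX3
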