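import Pool.Agent.H35.FC.ND

/-!
# Separation and replacement in the quotient
-/

set_option autoImplicit false

namespace Pool.Agent.H35.FC.AX4

open Pool.Agent.H9.FC Pool.Agent.H9.FC.BSet Pool.Agent.H35.FC

variable {B : Type} [CompleteBooleanAlgebra B]

/-- the name given by separation -/
def wsep (a : BSet B) (F : BSet B → B) : BSet B :=
  BSet.mk a.type a.func (fun i => a.bval i ⊓ F (a.func i))

lemma mem_wsep (a : BSet B) (F : BSet B → B) (hF : Ext F) (t : BSet B) {c : B}
    (h : c ≤ bmem t (wsep a F)) : c ≤ bmem t a ⊓ F t := by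
  refine memE h fun i d _ h1 h2 => ?_
  refine le_inf (memI i (h1.trans inf_le_left) h2) ?_
  exact (le_inf (eqS h2) (h1.trans inf_le_right)).trans (hF _ _)

lemma wsep_mem (a : BSet B) (F : BSet B → B) (hF : Ext F) (t : BSet B) {c : B}
    (h : c ≤ bmem t a ⊓ F t) : c ≤ bmem t (wsep a F) := by
  refine memE (h.trans inf_le_left) fun i d hd h1 h2 => ?_
  refine memI (y := wsep a F) i (le_inf h1 ?_) h2
  exact (le_inf h2 (hd.trans (h.trans inf_le_right))).trans (hF _ _)

/-- the name given by replacement -/
def wrep (a : BSet B) (F : BSet B → BSet B → B) (y : a.type → BSet B) : BSet B :=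
  BSet.mk a.type y (fun i => a.bval i ⊓ F (a.func i) (y i))

lemma mem_wrep (a : BSet B) (F : BSet B → BSet B → B) (y : a.type → BSet B)
    (hF : ∀ x, Ext (F x)) (t : BSet B) {c : B} (h : c ≤ bmem t (wrep a F y)) :
    c ≤ ⨆ x, bmem x a ⊓ F x t := by
  refine memE h fun i d _ h1 h2 => ?_
  have h3 : d ≤ a.bval i := h1.trans inf_le_left
  refine supI (a.func i) (le_inf (bvalI (y := a) i h3) ?_)
  exact (le_inf (eqS h2) (h1.trans inf_le_right)).trans (hF _ _ _)

lemma wrep_mem (a : BSet B) (F : BSet B → BSet B → B) (y : a.type → BSet B)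
    (hF' : ∀ y, Ext (fun x => F x y))
    (hy : ∀ i, F (a.func i) (y i) = ⨆ z, F (a.func i) z) (t : BSet B) {c : B}
    (hu : c ≤ ⨅ x, bmem x a ⇨ ⨆ y₀, ⨅ z, (F x z ⇨ beq z y₀) ⊓ (beq z y₀ ⇨ F x z))
    (h : c ≤ ⨆ x, bmem x a ⊓ F x t) : c ≤ bmem t (wrep a F y) := by
  refine supE h fun x d hd h1 => ?_
  refine memE (h1.trans inf_le_left) fun i e he h2 h3 => ?_
  have h4 : e ≤ F (a.func i) t :=
    (le_inf h3 (he.trans (h1.trans inf_le_right))).trans (hF' t _ _)
  have h5 : e ≤ F (a.func i) (y i) := by
    rw [hy]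
    exact supI t h4
  refine supE (himpE (infE (he.trans (hd.trans hu)) (a.func i)) (bvalI i h2))
    fun y₀ f hf h6 => ?_
  have h7 : f ≤ beq t y₀ := himpE ((infE h6 t).trans inf_le_left) (hf.trans h4)
  have h8 : f ≤ beq (y i) y₀ := himpE ((infE h6 (y i)).trans inf_le_left) (hf.trans h5)
  exact memI (y := wrep a F y) i (le_inf (hf.trans h2) (hf.trans h5)) (eqT h7 (eqS h8))

theorem pf_AX4 (_hLOS : T_LOS) (hTRA : T_TRA) (_hCON : T_CON) (_hBQ : T_BQ) (hFE : T_FE)
    (hMAX : T_MAX) : T_AX4 := by
  intro B _ M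
  constructor
  · intro φ v a
    choose v0 hv0 using fun i => M.cl_surj (v i)
    obtain ⟨a, rfl⟩ := M.cl_surj a
    obtain ⟨hE1, hE2⟩ := hFE B φ
    set k : ℕ := φ.bd + 1 with hk
    let v1 : ℕ → M.X := Function.update v0 k a
    have e1 : ∀ (w : BSet B) (t : BSet B), ∀ i < φ.bd,
        Function.update (Function.update (fun j => (v1 j).1) (k + 1) w) 0 t i =
        Function.update (fun j => (v0 j).1) 0 t i := by
      intro w t i hi
      have h1 : i ≠ k := by omega
      have h2 : i ≠ k + 1 := by omega
      by_cases h0 : i = 0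
      · simp [h0]
      · simp [v1, Function.update_apply, h0, h1, h2]
    have e2 : ∀ (w : M.X) (t : M.N), ∀ i < φ.bd,
        Function.update (Function.update (fun j => M.cl (v1 j)) (k + 1) (M.cl w)) 0 t i =
        Function.update v 0 t i := by
      intro w t i hi
      have h1 : i ≠ k := by omega
      have h2 : i ≠ k + 1 := by omega
      by_cases h0 : i = 0
      · simp [h0]
      · simp [v1, Function.update_apply, h0, h1, h2, hv0]
    have hk0 : k ≠ 0 := by omega
    let F : BSet B → B := fun t => fv φ (Function.update (fun j => (v0 j).1) 0 t)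
    have hF : Ext F := hE1 _ 0
    obtain ⟨z, hz⟩ := hTRA B M (Fml.imp Fml.fal Fml.fal)
      (Fml.all 0 (Fml.iff (Fml.mem 0 (k + 1)) (Fml.and (Fml.mem 0 k) φ))) (k + 1) v1 (by
        refine supI (wsep a.1 F) ?_
        refine le_iInf fun t => ?_
        rw [fv_iff, fv_and, hE2 _ _ (e1 _ t)]
        have h3 : fv (Fml.mem 0 (k + 1)) (Function.update (Function.update
            (fun j => (v1 j).1) (k + 1) (wsep a.1 F)) 0 t) = bmem t (wsep a.1 F) := by
          simp [fv]
        have h4 : fv (Fml.mem 0 k) (Function.update (Function.update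
            (fun j => (v1 j).1) (k + 1) (wsep a.1 F)) 0 t) = bmem t a.1 := by
          simp [fv, v1, hk0]
        rw [h3, h4]
        exact iffI (fun d _ h => mem_wsep a.1 F hF t h) (fun d _ h => wsep_mem a.1 F hF t h))
      (fun h => h)
    refine ⟨M.cl z, fun t => ?_⟩
    have h5 := hz t
    rw [sat_iff, sat_and, sat_congr φ _ _ (e2 z t)] at h5
    have h3 : Sat M.E (Fml.mem 0 (k + 1)) (Function.update (Function.update
        (fun j => M.cl (v1 j)) (k + 1) (M.cl z)) 0 t) ↔ M.E t (M.cl z) := by
      simp [Sat]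
    have h4 : Sat M.E (Fml.mem 0 k) (Function.update (Function.update
        (fun j => M.cl (v1 j)) (k + 1) (M.cl z)) 0 t) ↔ M.E t (M.cl a) := by
      simp [Sat, v1, hk0]
    rw [h3, h4] at h5
    exact h5
  · intro φ v a hu
    choose v0 hv0 using fun i => M.cl_surj (v i)
    obtain ⟨a, rfl⟩ := M.cl_surj a
    obtain ⟨hE1, hE2⟩ := hFE B φ
    set k : ℕ := φ.bd + 2 with hk
    let v1 : ℕ → M.X := Function.update v0 k a
    have hk0 : k ≠ 0 := by omega
    have hk1 : k ≠ 1 := by omega
    -- values
    let F : BSet B → BSet B → B := fun x y =>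
      fv φ (Function.update (Function.update (fun j => (v0 j).1) 0 x) 1 y)
    have hF : ∀ x, Ext (F x) := fun x => hE1 _ 1
    have hF' : ∀ y, Ext (fun x => F x y) := by
      intro y
      have h := hE1 (Function.update (fun j => (v0 j).1) 1 y) 0
      have h2 : (fun x => F x y) =
          fun x => fv φ (Function.update (Function.update (fun j => (v0 j).1) 1 y) 0 x) := by
        funext x
        rw [Function.update_comm (by norm_num)]
      rw [h2]
      exact h
    choose y hy using fun i : a.1.type => hMAX B (F (a.1.func i)) (hF (a.1.func i))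
    have e1 : ∀ (w : BSet B) (x t : BSet B), ∀ i < φ.bd,
        Function.update (Function.update (Function.update (fun j => (v1 j).1) (k + 1) w) 1 t) 0 x i =
        Function.update (Function.update (fun j => (v0 j).1) 0 x) 1 t i := by
      intro w x t i hi
      have h1 : i ≠ k := by omega
      have h2 : i ≠ k + 1 := by omega
      by_cases h0 : i = 0
      · simp [h0]
      · by_cases h3 : i = 1
        · simp [h3]
        · simp [v1, Function.update_apply, h0, h1, h2, h3]
    have e2 : ∀ (w : BSet B) (x t : BSet B), ∀ i < φ.bd,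
        Function.update (Function.update (Function.update (fun j => (v1 j).1) 0 x) (k + 2) w) 1 t i =
        Function.update (Function.update (fun j => (v0 j).1) 0 x) 1 t i := by
      intro w x t i hi
      have h1 : i ≠ k := by omega
      have h2 : i ≠ k + 2 := by omega
      by_cases h0 : i = 0
      · simp [h0]
      · by_cases h3 : i = 1
        · simp [h3]
        · simp [v1, Function.update_apply, h0, h1, h2, h3]
    have e3 : ∀ (w : M.N) (x t : M.N), ∀ i < φ.bd,
        Function.update (Function.update (Function.update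
          (fun j => M.cl (v1 j)) (k + 1) w) 1 t) 0 x i =
        Function.update (Function.update v 0 x) 1 t i := by
      intro w x t i hi
      have h1 : i ≠ k := by omega
      have h2 : i ≠ k + 1 := by omega
      by_cases h0 : i = 0
      · simp [h0]
      · by_cases h3 : i = 1
        · simp [h3]
        · simp [v1, Function.update_apply, h0, h1, h2, h3, hv0]
    have e4 : ∀ (w : M.N) (x t : M.N), ∀ i < φ.bd,
        Function.update (Function.update (Function.update
          (fun j => M.cl (v1 j)) 0 x) (k + 2) w) 1 t i =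
        Function.update (Function.update v 0 x) 1 t i := by
      intro w x t i hi
      have h1 : i ≠ k := by omega
      have h2 : i ≠ k + 2 := by omega
      by_cases h0 : i = 0
      · simp [h0]
      · by_cases h3 : i = 1
        · simp [h3]
        · simp [v1, Function.update_apply, h0, h1, h2, h3, hv0]
    have hχ : fv (Fml.all 0 (Fml.imp (Fml.mem 0 k) (Fml.ex (k + 2) (Fml.all 1
        (Fml.iff φ (Fml.eq 1 (k + 2))))))) (fun j => (v1 j).1) =
        ⨅ x, bmem x a.1 ⇨ ⨆ y₀, ⨅ z, (F x z ⇨ beq z y₀) ⊓ (beq z y₀ ⇨ F x z) := by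
      refine iInf_congr fun x => ?_
      change fv (Fml.mem 0 k) _ ⇨ fv (Fml.ex _ _) _ = _
      have h3 : fv (Fml.mem 0 k) (Function.update (fun j => (v1 j).1) 0 x) = bmem x a.1 := by
        simp [fv, v1, hk0]
      rw [h3, fv_ex]
      congr 1
      refine iSup_congr fun y₀ => iInf_congr fun z => ?_
      rw [fv_iff, hE2 _ _ (e2 y₀ x z)]
      have h4 : fv (Fml.eq 1 (k + 2)) (Function.update (Function.update (Function.update
          (fun j => (v1 j).1) 0 x) (k + 2) y₀) 1 z) = beq z y₀ := by
        simp [fv]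
      rw [h4]
    obtain ⟨z, hz⟩ := hTRA B M (Fml.all 0 (Fml.imp (Fml.mem 0 k) (Fml.ex (k + 2) (Fml.all 1
        (Fml.iff φ (Fml.eq 1 (k + 2)))))))
      (Fml.all 1 (Fml.iff (Fml.mem 1 (k + 1)) (Fml.ex 0 (Fml.and (Fml.mem 0 k) φ)))) (k + 1) v1 (by
        rw [hχ]
        refine supI (wrep a.1 F y) ?_
        refine le_iInf fun t => ?_
        rw [fv_iff, fv_ex]
        have h3 : fv (Fml.mem 1 (k + 1)) (Function.update (Function.update
            (fun j => (v1 j).1) (k + 1) (wrep a.1 F y)) 1 t) = bmem t (wrep a.1 F y) := by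
          simp [fv, hk0]
        have h4 : ∀ x, fv (Fml.and (Fml.mem 0 k) φ) (Function.update (Function.update
            (Function.update (fun j => (v1 j).1) (k + 1) (wrep a.1 F y)) 1 t) 0 x) =
            bmem x a.1 ⊓ F x t := by
          intro x
          rw [fv_and, hE2 _ _ (e1 _ x t)]
          congr 1
          simp [fv, v1, hk0, hk1]
        simp only [h3, h4]
        exact iffI (fun d _ h => mem_wrep a.1 F y hF t h)
          (fun d hd h => wrep_mem a.1 F y hF' hy t hd h)) (by
        intro x hx
        rw [sat_ex]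
        have hx3 : M.E x (M.cl a) := by simpa [Sat, v1, hk0] using hx
        obtain ⟨y₀, hy1, hy2⟩ := hu x hx3
        refine ⟨y₀, fun z => ?_⟩
        rw [sat_iff, sat_congr φ _ _ (e4 y₀ x z)]
        have h4 : Sat M.E (Fml.eq 1 (k + 2)) (Function.update (Function.update (Function.update
            (fun j => M.cl (v1 j)) 0 x) (k + 2) y₀) 1 z) ↔ z = y₀ := by
          simp [Sat]
        rw [h4]
        constructor
        · intro h; exact hy2 z h
        · rintro rfl; exact hy1)
    refine ⟨M.cl z, fun t => ?_⟩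
    have h5 := hz t
    rw [sat_iff, sat_ex] at h5
    have h3 : Sat M.E (Fml.mem 1 (k + 1)) (Function.update (Function.update
        (fun j => M.cl (v1 j)) (k + 1) (M.cl z)) 1 t) ↔ M.E t (M.cl z) := by
      simp [Sat, hk0]
    rw [h3] at h5
    rw [h5]
    refine exists_congr fun x => ?_
    rw [sat_and, sat_congr φ _ _ (e3 _ x t)]
    refine and_congr_left fun _ => ?_
    simp [Sat, v1, hk0, hk1]

end Pool.Agent.H35.FC.AX4
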