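import Pool.Agent.H35.FC.ND

/-!
# Choice in the quotient
-/

set_option autoImplicit false

namespace Pool.Agent.H35.FC.AX5

open Pool.Agent.H9.FC Pool.Agent.H9.FC.BSet Pool.Agent.H35.FC

variable {B : Type} [CompleteBooleanAlgebra B]

/-- the names of the elements of elements -/
def KK (x : BSet B) : Type := Σ i : x.type, (x.func i).type

/-- the element with index `k` -/
def uu (x : BSet B) (k : KK x) : BSet B := (x.func k.1).func k.2

/-- `k` is the least index of an element of `y` -/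
noncomputable def mm (x : BSet B) (k : KK x) (y : BSet B) : B :=
  bmem (uu x k) y ⊓ ⨅ k' : {k' : KK x // WellOrderingRel k' k}, (bmem (uu x k'.1) y)ᶜ

/-- the name of the choice set -/
noncomputable def cc (x : BSet B) : BSet B :=
  BSet.mk (x.type × KK x) (fun q => uu x q.2) (fun q => x.bval q.1 ⊓ mm x q.2 (x.func q.1))

lemma mm_congr {x : BSet B} {k : KK x} {y y' : BSet B} {c : B} (h : c ≤ beq y y')
    (h' : c ≤ mm x k y) : c ≤ mm x k y' := by
  refine le_inf (memR h (h'.trans inf_le_left)) (le_iInf fun k' => complI fun d hd h1 => ?_)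
  exact complE (hd.trans (infE (h'.trans inf_le_right) k')) (memR (eqS (hd.trans h)) h1)

lemma least_exists (x : BSet B) (y : BSet B) (k : KK x) :
    bmem (uu x k) y ≤ ⨆ k', mm x k' y := by
  have hw : WellFounded (WellOrderingRel : KK x → KK x → Prop) := IsWellFounded.wf
  induction k using hw.induction with
  | _ k ih =>
    refine byContra fun d hd h => complE h (supI k (le_inf hd (le_iInf fun k' =>
      complI fun e he h1 => complE (he.trans h) (h1.trans (ih k'.1 k'.2)))))

lemma choice_val (x : BSet B) {c : B}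
    (h1 : c ≤ ⨅ y, bmem y x ⇨ ⨆ z, bmem z y)
    (h2 : c ≤ ⨅ y, ⨅ y', bmem y x ⇨ (bmem y' x ⇨ ((⨆ z, bmem z y ⊓ bmem z y') ⇨ beq y y'))) :
    c ≤ ⨅ y, bmem y x ⇨ ⨆ z, ⨅ z', ((bmem z' y ⊓ bmem z' (cc x)) ⇨ beq z' z) ⊓
      (beq z' z ⇨ (bmem z' y ⊓ bmem z' (cc x))) := by
  refine le_iInf fun y => himpI fun d hd h3 => ?_
  refine memE h3 fun i e he h4 h5 => ?_
  have h6 : e ≤ ⨆ z, bmem z (x.func i) :=
    himpE (infE (he.trans (hd.trans h1)) (x.func i)) (bvalI i h4)
  have h7 : e ≤ ⨆ k, mm x k (x.func i) := by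
    refine supE h6 fun z f hf h8 => memE h8 fun j g hg h9 _ => ?_
    exact (bvalI j h9).trans (least_exists x (x.func i) ⟨i, j⟩)
  refine supE h7 fun k f hf h8 => ?_
  have h9 : f ≤ bmem (uu x k) (x.func i) := h8.trans inf_le_left
  refine supI (uu x k) (le_iInf fun z' => iffI (fun g hg h10 => ?_) (fun g hg h10 => ?_))
  · refine memE (h10.trans inf_le_right) fun q a ha h11 h12 => ?_
    obtain ⟨i', k'⟩ := q
    have h13 : a ≤ x.bval i' := h11.trans inf_le_left
    have h14 : a ≤ mm x k' (x.func i') := h11.trans inf_le_right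
    have h12' : a ≤ beq z' (uu x k') := h12
    have haf : a ≤ f := ha.trans hg
    have h15 : a ≤ bmem z' (x.func i) :=
      memR (haf.trans (hf.trans h5)) (ha.trans (h10.trans inf_le_left))
    have h16 : a ≤ bmem z' (x.func i') := memL (eqS h12') (h14.trans inf_le_left)
    have hac : a ≤ c := haf.trans (hf.trans (he.trans hd))
    have h17 : a ≤ beq (x.func i) (x.func i') :=
      himpE (himpE (himpE (infE (infE (hac.trans h2) (x.func i)) (x.func i'))
        (bvalI i (haf.trans (hf.trans h4)))) (bvalI i' h13)) (supI z' (le_inf h15 h16))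
    have h18 : a ≤ mm x k' (x.func i) := mm_congr (eqS h17) h14
    rcases trichotomous_of (WellOrderingRel : KK x → KK x → Prop) k k' with h | h | h
    · exact botE (complE (infE (h18.trans inf_le_right) ⟨k, h⟩) (haf.trans h9))
    · rw [h]
      exact h12'
    · exact botE (complE (infE (haf.trans (h8.trans inf_le_right)) ⟨k', h⟩)
        (h18.trans inf_le_left))
  · refine le_inf ?_ ?_
    · exact memL (eqS h10) (memR (eqS (hg.trans (hf.trans h5))) (hg.trans h9))
    · exact memI (y := cc x) (i, k) (le_inf (hg.trans (hf.trans h4)) (hg.trans h8)) h10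

theorem pf_AX5 (_hLOS : T_LOS) (hTRA : T_TRA) (_hCON : T_CON) (_hBQ : T_BQ) : T_AX5 := by
  intro B _ M x hx1 hx2
  obtain ⟨x, rfl⟩ := M.cl_surj x
  let v : ℕ → M.X := fun _ => x
  obtain ⟨c, hc⟩ := hTRA B M
    (Fml.and (Fml.all 1 (Fml.imp (Fml.mem 1 0) (Fml.ex 3 (Fml.mem 3 1))))
      (Fml.all 1 (Fml.all 2 (Fml.imp (Fml.mem 1 0) (Fml.imp (Fml.mem 2 0)
        (Fml.imp (Fml.ex 3 (Fml.and (Fml.mem 3 1) (Fml.mem 3 2))) (Fml.eq 1 2)))))))
    (Fml.all 1 (Fml.imp (Fml.mem 1 0) (Fml.ex 3 (Fml.all 4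
      (Fml.iff (Fml.and (Fml.mem 4 1) (Fml.mem 4 2)) (Fml.eq 4 3)))))) 2 v (by
      have e1 : fv (Fml.and (Fml.all 1 (Fml.imp (Fml.mem 1 0) (Fml.ex 3 (Fml.mem 3 1))))
          (Fml.all 1 (Fml.all 2 (Fml.imp (Fml.mem 1 0) (Fml.imp (Fml.mem 2 0)
          (Fml.imp (Fml.ex 3 (Fml.and (Fml.mem 3 1) (Fml.mem 3 2))) (Fml.eq 1 2)))))))
          (fun j => (v j).1) = (⨅ y, bmem y x.1 ⇨ ⨆ z, bmem z y) ⊓
          ⨅ y, ⨅ y', bmem y x.1 ⇨ (bmem y' x.1 ⇨
            ((⨆ z, bmem z y ⊓ bmem z y') ⇨ beq y y')) := by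
        simp [fv, fv_and, fv_ex, v, Function.update_apply]
      have e2 : fv (Fml.all 1 (Fml.imp (Fml.mem 1 0) (Fml.ex 3 (Fml.all 4
          (Fml.iff (Fml.and (Fml.mem 4 1) (Fml.mem 4 2)) (Fml.eq 4 3))))))
          (Function.update (fun j => (v j).1) 2 (cc x.1)) =
          ⨅ y, bmem y x.1 ⇨ ⨆ z, ⨅ z', ((bmem z' y ⊓ bmem z' (cc x.1)) ⇨ beq z' z) ⊓
            (beq z' z ⇨ (bmem z' y ⊓ bmem z' (cc x.1))) := by
        simp [fv, fv_and, fv_ex, fv_iff, v, Function.update_apply]
      refine supI (cc x.1) ?_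
      rw [e1, e2]
      exact choice_val x.1 inf_le_left inf_le_right) (by
      rw [sat_and]
      constructor
      · intro y hy
        rw [sat_ex]
        obtain ⟨z, hz⟩ := hx1 y (by simpa [Sat, v, Function.update_apply] using hy)
        exact ⟨z, by simpa [Sat, v, Function.update_apply] using hz⟩
      · intro y y' hy hy' h
        rw [sat_ex] at h
        obtain ⟨z, hz⟩ := h
        rw [sat_and] at hz
        have := hx2 y y' (by simpa [Sat, v, Function.update_apply] using hy)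
          (by simpa [Sat, v, Function.update_apply] using hy')
          ⟨z, by simpa [Sat, v, Function.update_apply] using hz⟩
        simpa [Sat, v, Function.update_apply] using this)
  refine ⟨M.cl c, fun y hy => ?_⟩
  have h1 := hc y (by simpa [Sat, v, Function.update_apply] using hy)
  rw [sat_ex] at h1
  obtain ⟨z, hz⟩ := h1
  have h2 : ∀ z', (M.E z' y ∧ M.E z' (M.cl c)) ↔ z' = z := by
    intro z'
    have h3 := hz z'
    rw [sat_iff, sat_and] at h3
    simpa [Sat, v, Function.update_apply] using h3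
  exact ⟨z, (h2 z).2 rfl, fun z' h => (h2 z').1 h⟩

end Pool.Agent.H35.FC.AX5
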