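import Pool.Agent.H9.FC.TA

/-!
# Natural deduction in complete Boolean algebras and Boolean valued sets
-/

set_option autoImplicit false

namespace Pool.Agent.H35.FC

open Pool.Agent.H9.FC Pool.Agent.H9.FC.BSet

section nd

variable {B : Type*} [CompleteBooleanAlgebra B]

lemma himpI {c a b : B} (h : ∀ d ≤ c, d ≤ a → d ≤ b) : c ≤ a ⇨ b := by
  rw [le_himp_iff]
  exact h _ inf_le_left inf_le_right

lemma himpE {c a b : B} (h : c ≤ a ⇨ b) (h' : c ≤ a) : c ≤ b := by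
  rw [le_himp_iff] at h
  exact (le_inf le_rfl h').trans h

lemma iffI {c a b : B} (h : ∀ d ≤ c, d ≤ a → d ≤ b) (h' : ∀ d ≤ c, d ≤ b → d ≤ a) :
    c ≤ (a ⇨ b) ⊓ (b ⇨ a) := le_inf (himpI h) (himpI h')

lemma complI {c a : B} (h : ∀ d ≤ c, d ≤ a → d ≤ ⊥) : c ≤ aᶜ := by
  rw [← himp_bot]
  exact himpI h

lemma complE {c a : B} (h : c ≤ aᶜ) (h' : c ≤ a) : c ≤ ⊥ := by
  have := le_inf h' h
  rw [inf_compl_self] at this
  exact this

lemma botE {c a : B} (h : c ≤ ⊥) : c ≤ a := h.trans bot_le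

lemma byContra {c a : B} (h : ∀ d ≤ c, d ≤ aᶜ → d ≤ ⊥) : c ≤ a := by
  have h1 := complI h
  rwa [compl_compl] at h1

lemma supE {ι : Sort*} {c g : B} {F : ι → B} (h : c ≤ ⨆ i, F i)
    (k : ∀ i, ∀ d ≤ c, d ≤ F i → d ≤ g) : c ≤ g := by
  have h1 : c = ⨆ i, c ⊓ F i := by rw [← inf_iSup_eq, inf_eq_left.2 h]
  rw [h1]
  exact iSup_le fun i => k i _ inf_le_left inf_le_right

lemma supI {ι : Sort*} {c : B} {F : ι → B} (i : ι) (h : c ≤ F i) : c ≤ ⨆ i, F i :=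
  h.trans (le_iSup F i)

lemma infE {ι : Sort*} {c : B} {F : ι → B} (h : c ≤ ⨅ i, F i) (i : ι) : c ≤ F i :=
  h.trans (iInf_le F i)

lemma orE {c g a b : B} (h : c ≤ a ⊔ b) (k1 : ∀ d ≤ c, d ≤ a → d ≤ g)
    (k2 : ∀ d ≤ c, d ≤ b → d ≤ g) : c ≤ g := by
  have h1 : c = (c ⊓ a) ⊔ (c ⊓ b) := by rw [← inf_sup_left, inf_eq_left.2 h]
  rw [h1]
  exact sup_le (k1 _ inf_le_left inf_le_right) (k2 _ inf_le_left inf_le_right)

lemma emE {c g : B} (a : B) (k1 : ∀ d ≤ c, d ≤ a → d ≤ g)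
    (k2 : ∀ d ≤ c, d ≤ aᶜ → d ≤ g) : c ≤ g :=
  orE (a := a) (b := aᶜ) (by rw [sup_compl_eq_top]; exact le_top) k1 k2

end nd

section bs

variable {B : Type} [CompleteBooleanAlgebra B]

lemma eqR {c : B} (x : BSet B) : c ≤ beq x x := by rw [beq_refl]; exact le_top

lemma eqS {c : B} {x y : BSet B} (h : c ≤ beq x y) : c ≤ beq y x := by rwa [beq_symm]

lemma eqT {c : B} {x y z : BSet B} (h : c ≤ beq x y) (h' : c ≤ beq y z) : c ≤ beq x z :=
  (le_inf h h').trans (beq_trans x y z)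

lemma memL {c : B} {x x' y : BSet B} (h : c ≤ beq x x') (h' : c ≤ bmem x y) : c ≤ bmem x' y :=
  (le_inf h h').trans (bmem_congr_left x x' y)

lemma memR {c : B} {x y y' : BSet B} (h : c ≤ beq y y') (h' : c ≤ bmem x y) : c ≤ bmem x y' :=
  (le_inf h h').trans (bmem_congr_right x y y')

lemma memE {c g : B} {x y : BSet B} (h : c ≤ bmem x y)
    (k : ∀ i, ∀ d ≤ c, d ≤ y.bval i → d ≤ beq x (y.func i) → d ≤ g) : c ≤ g :=
  supE h fun i d hd h1 => k i d hd (h1.trans inf_le_left) (h1.trans inf_le_right)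

lemma memI {c : B} {x y : BSet B} (i : y.type) (h1 : c ≤ y.bval i)
    (h2 : c ≤ beq x (y.func i)) : c ≤ bmem x y := supI i (le_inf h1 h2)

lemma bvalI {c : B} {y : BSet B} (i : y.type) (h1 : c ≤ y.bval i) : c ≤ bmem (y.func i) y :=
  h1.trans (bval_le_bmem y i)

lemma extI {c : B} {x y : BSet B} (h1 : ∀ z, ∀ d ≤ c, d ≤ bmem z x → d ≤ bmem z y)
    (h2 : ∀ z, ∀ d ≤ c, d ≤ bmem z y → d ≤ bmem z x) : c ≤ beq x y := by
  rw [beq_eq]
  refine le_inf (le_iInf fun i => himpI fun d hd h => ?_) (le_iInf fun i => himpI fun d hd h => ?_)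
  · exact h1 _ d hd (bvalI i h)
  · exact h2 _ d hd (bvalI i h)

/-! ### values of formulas -/

lemma fv_neg (φ : Fml) (v : ℕ → BSet B) : fv (Fml.neg φ) v = (fv φ v)ᶜ := himp_bot _

lemma fv_and (φ ψ : Fml) (v : ℕ → BSet B) : fv (Fml.and φ ψ) v = fv φ v ⊓ fv ψ v := by
  unfold Fml.and
  rw [fv_neg]
  change (fv φ v ⇨ fv (Fml.neg ψ) v)ᶜ = _
  rw [fv_neg, himp_eq, compl_sup, compl_compl, compl_compl, inf_comm]

lemma fv_or (φ ψ : Fml) (v : ℕ → BSet B) : fv (Fml.or φ ψ) v = fv φ v ⊔ fv ψ v := by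
  change fv (Fml.neg φ) v ⇨ fv ψ v = _
  rw [fv_neg, himp_eq, compl_compl, sup_comm]

lemma fv_iff (φ ψ : Fml) (v : ℕ → BSet B) :
    fv (Fml.iff φ ψ) v = (fv φ v ⇨ fv ψ v) ⊓ (fv ψ v ⇨ fv φ v) := by
  unfold Fml.iff
  rw [fv_and]
  rfl

lemma fv_ex (i : ℕ) (φ : Fml) (v : ℕ → BSet B) :
    fv (Fml.ex i φ) v = ⨆ x, fv φ (Function.update v i x) := by
  unfold Fml.ex
  rw [fv_neg]
  change (⨅ x, fv (Fml.neg φ) (Function.update v i x))ᶜ = _
  rw [compl_iInf]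
  refine iSup_congr fun x => ?_
  rw [fv_neg, compl_compl]

variable {N : Type 1} {E : N → N → Prop}

lemma sat_neg (φ : Fml) (v : ℕ → N) : Sat E (Fml.neg φ) v ↔ ¬ Sat E φ v := Iff.rfl

lemma sat_and (φ ψ : Fml) (v : ℕ → N) : Sat E (Fml.and φ ψ) v ↔ Sat E φ v ∧ Sat E ψ v := by
  unfold Fml.and
  rw [sat_neg]
  change ¬ (Sat E φ v → ¬ Sat E ψ v) ↔ _
  tauto

lemma sat_or (φ ψ : Fml) (v : ℕ → N) : Sat E (Fml.or φ ψ) v ↔ Sat E φ v ∨ Sat E ψ v := by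
  change (¬ Sat E φ v → Sat E ψ v) ↔ _
  tauto

lemma sat_iff (φ ψ : Fml) (v : ℕ → N) :
    Sat E (Fml.iff φ ψ) v ↔ (Sat E φ v ↔ Sat E ψ v) := by
  unfold Fml.iff
  rw [sat_and]
  change ((Sat E φ v → Sat E ψ v) ∧ (Sat E ψ v → Sat E φ v)) ↔ _
  tauto

lemma sat_ex (i : ℕ) (φ : Fml) (v : ℕ → N) :
    Sat E (Fml.ex i φ) v ↔ ∃ x, Sat E φ (Function.update v i x) := by
  unfold Fml.ex
  rw [sat_neg]
  change ¬ (∀ x, ¬ Sat E φ (Function.update v i x)) ↔ _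
  push Not
  rfl

/-- satisfaction depends only on the variables below `bd` -/
lemma sat_congr (φ : Fml) : ∀ (v v' : ℕ → N), (∀ i < φ.bd, v i = v' i) →
    (Sat E φ v ↔ Sat E φ v') := by
  induction φ with
  | mem i j =>
    intro v v' h
    change E (v i) (v j) ↔ E (v' i) (v' j)
    rw [h i (by simp [Fml.bd]), h j (by simp [Fml.bd])]
  | eq i j =>
    intro v v' h
    change v i = v j ↔ v' i = v' j
    rw [h i (by simp [Fml.bd]), h j (by simp [Fml.bd])]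
  | fal => intro v v' _; exact Iff.rfl
  | imp φ ψ ih1 ih2 =>
    intro v v' h
    change (Sat E φ v → Sat E ψ v) ↔ (Sat E φ v' → Sat E ψ v')
    rw [ih1 v v' fun i hi => h i (lt_of_lt_of_le hi (le_max_left _ _)),
      ih2 v v' fun i hi => h i (lt_of_lt_of_le hi (le_max_right _ _))]
  | all i φ ih =>
    intro v v' h
    change (∀ x, Sat E φ (Function.update v i x)) ↔ ∀ x, Sat E φ (Function.update v' i x)
    refine forall_congr' fun x => ih _ _ fun j hj => ?_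
    by_cases hji : j = i
    · subst hji; simp
    · rw [Function.update_of_ne hji, Function.update_of_ne hji]
      exact h j (lt_of_lt_of_le hj (le_max_right _ _))

end bs

end Pool.Agent.H35.FC
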