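import Pool.Agent.H89.FC.TargetsN
import Pool.Agent.H11.FM.MUL

/-!
# The coefficients are multiplicative (MP_52e316_nt, row NMU)
-/

set_option autoImplicit false

open MeasureTheory Set Filter NumberField
open Pool.Agent.H31.CN Pool.Agent.H89.FM Pool.Agent.H61.FM Pool.Agent.H89.FC
open scoped Real nonZeroDivisors

namespace Pool.Agent.H35.FC

open Pool.Agent.H11.FM (recov split)

theorem pf_MULc : T_MULc := by
  intro K _ _ σ f k ψ hψ
  have hone : lc ψ 1 = 1 := by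
    have h : Nn K 1 = {1} := by
      ext I
      rw [mem_Nn, Finset.mem_singleton]
      unfold nm
      rw [Ideal.absNorm_eq_one_iff]
      constructor
      · intro h
        apply Subtype.ext
        rw [h]
        exact Ideal.one_eq_top.symm
      · intro h
        rw [h]
        exact Ideal.one_eq_top
    unfold lc
    rw [h, Finset.sum_singleton]
    have h1 : (((1 : (Ideal (𝓞 K))⁰)) : Ideal (𝓞 K)) = ⊤ := Ideal.one_eq_top
    rw [h1]
    exact hψ.one
  have hzero : lc ψ 0 = 0 := by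
    have h : Nn K 0 = ∅ := by
      refine Finset.eq_empty_of_forall_notMem fun I hI => ?_
      rw [mem_Nn] at hI
      unfold nm at hI
      rw [Ideal.absNorm_eq_zero_iff] at hI
      exact nonZeroDivisors.coe_ne_zero I hI
    unfold lc
    rw [h, Finset.sum_empty]
  refine ⟨hone, fun m n h => ?_⟩
  rcases eq_or_ne m 0 with rfl | hm
  · rw [Nat.zero_mul, hzero, zero_mul]
  rcases eq_or_ne n 0 with rfl | hn
  · rw [Nat.mul_zero, hzero, mul_zero]
  unfold lc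
  rw [Finset.sum_mul_sum, ← Finset.sum_product']
  symm
  refine Finset.sum_nbij (fun p => p.1 * p.2) ?_ ?_ ?_ ?_
  · rintro ⟨I, J⟩ hp
    obtain ⟨hI, hJ⟩ := Finset.mem_product.1 hp
    rw [mem_Nn] at hI hJ ⊢
    show Ideal.absNorm ((I : Ideal (𝓞 K)) * (J : Ideal (𝓞 K))) = m * n
    rw [map_mul]
    exact congrArg₂ _ hI hJ
  · rintro ⟨I, J⟩ hp ⟨I', J'⟩ hp' he
    obtain ⟨hI, hJ⟩ := Finset.mem_product.1 (Finset.mem_coe.1 hp)
    obtain ⟨hI', hJ'⟩ := Finset.mem_product.1 (Finset.mem_coe.1 hp')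
    rw [mem_Nn] at hI hJ hI' hJ'
    have he' : (I : Ideal (𝓞 K)) * (J : Ideal (𝓞 K)) = (I' : Ideal (𝓞 K)) * (J' : Ideal (𝓞 K)) :=
      congrArg Subtype.val he
    have e1 : (I : Ideal (𝓞 K)) = I' := by
      rw [recov h hI hJ, he', ← recov h hI' hJ']
    have e2 : (J : Ideal (𝓞 K)) = J' := by
      rw [recov h.symm hJ hI, mul_comm (J : Ideal (𝓞 K)), he', mul_comm (I' : Ideal (𝓞 K)),
        ← recov h.symm hJ' hI']
    exact Prod.ext (Subtype.ext e1) (Subtype.ext e2)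
  · intro E hE
    rw [Finset.mem_coe, mem_Nn] at hE
    obtain ⟨h1, h2, h3⟩ := split h hm hE
    have n1 : (E : Ideal (𝓞 K)) ⊔ Ideal.span {(m : 𝓞 K)} ∈ (Ideal (𝓞 K))⁰ := by
      rw [mem_nonZeroDivisors_iff_ne_zero]
      intro h0
      rw [h0] at h2
      exact hm (by rw [← h2]; exact Ideal.absNorm_bot)
    have n2 : (E : Ideal (𝓞 K)) ⊔ Ideal.span {(n : 𝓞 K)} ∈ (Ideal (𝓞 K))⁰ := by
      rw [mem_nonZeroDivisors_iff_ne_zero]
      intro h0
      rw [h0] at h3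
      exact hn (by rw [← h3]; exact Ideal.absNorm_bot)
    refine ⟨(⟨_, n1⟩, ⟨_, n2⟩), ?_, Subtype.ext h1⟩
    exact Finset.mem_coe.2 (Finset.mem_product.2 ⟨mem_Nn.2 h2, mem_Nn.2 h3⟩)
  · rintro ⟨I, J⟩ _
    show ψ (I : Ideal (𝓞 K)) * ψ (J : Ideal (𝓞 K)) = ψ (((I * J : (Ideal (𝓞 K))⁰)) : Ideal (𝓞 K))
    rw [← hψ.mul]
    rfl

end Pool.Agent.H35.FC
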